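import Pool.Agent.helper17.LQ.SpecQ2

/-!
# MP_07c750, PROJECT LQ, row QBH
-/

open MeasureTheory Set

set_option autoImplicit false

namespace Pool.Agent.LP

noncomputable section

theorem QBH_AR {C C' a η : ℝ} {G m : ℕ} {D : Finset ℤ} (h : C ≤ C') (hD : AR C a η G m D) : AR C' a η G m D := by
  refine ⟨fun d hd => (hD.1 d hd).trans ?_, fun i hi y => (hD.2 i hi y).trans ?_⟩
  · exact mul_le_mul_of_nonneg_right h (Real.exp_pos _).le
  · exact mul_le_mul_of_nonneg_right h (Real.exp_pos _).le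

theorem QBH_GD {U : Set ℝ} {C C' a η : ℝ} {G m : ℕ} {X : ℝ} (h : C ≤ C') (hX : GD U C' a η G m X) : GD U C a η G m X :=
  fun D c hD h1 h4 d hd => hX D c (QBH_AR h hD) h1 h4 d hd

theorem QBH_proof (hQBB : QBB_stmt) : BBQ_stmt := by
  intro C1 a η h β b G hC1 ha hη haη hh hhη hah hG hb hb1 hβ hlt
  have hG0 : (0 : ℝ) < (G : ℝ) := by
    have : 0 < G := by omega
    exact_mod_cast this
  have hGi : 0 < 1 / (G : ℝ) := by positivity
  have e24 : 24 / (G : ℝ) = 24 * (1 / (G : ℝ)) := by ring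
  have hC' : C1 ≤ max C1 (4 / b) := le_max_left _ _
  obtain ⟨m0, hm0⟩ := hQBB (max C1 (4 / b)) a η h β b G (hC1.trans hC') ha hη haη hh hhη hah (by linarith) (by linarith) hG hb hb1 (by rw [e24]; nlinarith)
  refine ⟨m0, fun m U K hm hU hUs hvol hcard hbad => hm0 m U K hm hU hUs ?_ ?_ ?_⟩
  · intro i hi y
    refine (hvol i hi y).trans ?_
    have e : (h + η) * (((G : ℝ) - i) * m) - G * m = (h + η - 1) * (((G : ℝ) - i) * m) - i * m := by ring
    rw [e]
    exact mul_le_mul_of_nonneg_right hC' (Real.exp_pos _).le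
  · refine ⟨fun k hk => ?_, fun i hi y => ?_⟩
    · obtain ⟨X, hX1, hX2, hX3, -⟩ := hbad k hk
      have hE : 1 ≤ Real.exp ((G : ℝ) * m) := Real.one_le_exp (by positivity)
      have hEE : Real.exp (-((G : ℝ) * m)) * Real.exp ((G : ℝ) * m) = 1 := by
        rw [← Real.exp_add]; simp
      have hE0 : 0 < Real.exp (-((G : ℝ) * m)) := Real.exp_pos _
      have hX4 := abs_le.mp hX3
      have key : |(k : ℝ)| * (b / 4) ≤ (1 / 16) * Real.exp ((G : ℝ) * m) + b / 4 := by
        have h1 : (k : ℝ) * (b / 4) ≤ 1 / 16 * Real.exp ((G : ℝ) * m) := by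
          have := mul_le_mul_of_nonneg_right (hX1.trans hX4.2) (Real.exp_pos ((G : ℝ) * m)).le
          have e : (k : ℝ) * (b / 4 * Real.exp (-((G : ℝ) * m))) * Real.exp ((G : ℝ) * m) = (k : ℝ) * (b / 4) * (Real.exp (-((G : ℝ) * m)) * Real.exp ((G : ℝ) * m)) := by ring
          rw [e, hEE, mul_one] at this
          exact this
        have h2 : -(1 / 16) * Real.exp ((G : ℝ) * m) ≤ ((k : ℝ) + 1) * (b / 4) := by
          have := mul_le_mul_of_nonneg_right (hX4.1.trans hX2.le) (Real.exp_pos ((G : ℝ) * m)).le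
          have e : ((k : ℝ) + 1) * (b / 4 * Real.exp (-((G : ℝ) * m))) * Real.exp ((G : ℝ) * m) = ((k : ℝ) + 1) * (b / 4) * (Real.exp (-((G : ℝ) * m)) * Real.exp ((G : ℝ) * m)) := by ring
          rw [e, hEE, mul_one] at this
          exact this
        rcases abs_cases (k : ℝ) with ⟨h3, -⟩ | ⟨h3, -⟩
        · rw [h3]; linarith
        · rw [h3]; linarith
      have h5 : |(k : ℝ)| * b ≤ 4 * Real.exp ((G : ℝ) * m) := by nlinarith
      have h6 : |(k : ℝ)| ≤ 4 / b * Real.exp ((G : ℝ) * m) := by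
        rw [div_mul_eq_mul_div, le_div_iff₀ hb]
        exact h5
      exact h6.trans (mul_le_mul_of_nonneg_right (le_max_right _ _) (Real.exp_pos _).le)
    · have h7 := hcard (G - i) (Nat.sub_le _ _) (y * (b / 4 * Real.exp (-((G : ℝ) * m))))
      have ecast : (((G - i : ℕ)) : ℝ) = (G : ℝ) - i := by
        rw [Nat.cast_sub hi]
      rw [ecast] at h7
      have e8 : (G : ℝ) - ((G : ℝ) - i) = i := by ring
      rw [e8] at h7
      have hsub : (K.filter fun d : ℤ => |(d : ℝ) - y| ≤ Real.exp (i * m)) ⊆ (K.filter fun k : ℤ => |(k : ℝ) * (b / 4 * Real.exp (-((G : ℝ) * m))) - y * (b / 4 * Real.exp (-((G : ℝ) * m)))| ≤ Real.exp (-(((G : ℝ) - i) * m))) := by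
        intro d hd
        rw [Finset.mem_filter] at hd ⊢
        refine ⟨hd.1, ?_⟩
        have e9 : (d : ℝ) * (b / 4 * Real.exp (-((G : ℝ) * m))) - y * (b / 4 * Real.exp (-((G : ℝ) * m))) = ((d : ℝ) - y) * (b / 4 * Real.exp (-((G : ℝ) * m))) := by ring
        have hpos : 0 < b / 4 * Real.exp (-((G : ℝ) * m)) := by positivity
        rw [e9, abs_mul, abs_of_pos hpos]
        have e10 : Real.exp (-(((G : ℝ) - i) * m)) = Real.exp (i * m) * Real.exp (-((G : ℝ) * m)) := by
          rw [← Real.exp_add]; congr 1; ring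
        rw [e10]
        calc |(d : ℝ) - y| * (b / 4 * Real.exp (-((G : ℝ) * m))) ≤ Real.exp (i * m) * (b / 4 * Real.exp (-((G : ℝ) * m))) := mul_le_mul_of_nonneg_right hd.2 hpos.le
          _ ≤ Real.exp (i * m) * (1 * Real.exp (-((G : ℝ) * m))) := by
              refine mul_le_mul_of_nonneg_left (mul_le_mul_of_nonneg_right ?_ (Real.exp_pos _).le) (Real.exp_pos _).le
              linarith
          _ = Real.exp (i * m) * Real.exp (-((G : ℝ) * m)) := by rw [one_mul]
      have h10 : ((K.filter fun d : ℤ => |(d : ℝ) - y| ≤ Real.exp (i * m)).card : ℝ) ≤ ((K.filter fun k : ℤ => |(k : ℝ) * (b / 4 * Real.exp (-((G : ℝ) * m))) - y * (b / 4 * Real.exp (-((G : ℝ) * m)))| ≤ Real.exp (-(((G : ℝ) - i) * m))).card : ℝ) := by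
        exact_mod_cast Finset.card_le_card hsub
      exact (h10.trans h7).trans (mul_le_mul_of_nonneg_right hC' (Real.exp_pos _).le)
  · intro k hk
    obtain ⟨X, hX1, hX2, hX3, hX4⟩ := hbad k hk
    exact ⟨X, hX1, hX2, hX3, fun hg => hX4 (QBH_GD hC' hg)⟩

end

end Pool.Agent.LP
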